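import Pool.Agent.H7.Bibo.Anorm

set_option autoImplicit false

open MvPolynomial

namespace Pool.Agent.H7.Bibo

/-- numerator -/
noncomputable def PP : MvPolynomial (Fin 6) ℝ := ∏ i : Fin 5, (1 - X i.castSucc)

/-- product of the `ρ(X_i)` -/
noncomputable def RR : MvPolynomial (Fin 6) ℝ :=
  ∏ i : Fin 5, (C (1 / 8) * (3 + 6 * X i.castSucc - X i.castSucc ^ 2))

/-- denominator -/
noncomputable def QQ : MvPolynomial (Fin 6) ℝ := 1 - X (Fin.last 5) * RR

lemma PR (k : ℕ) : PP * RR ^ k = ∏ i : Fin 5, Polynomial.aeval (X i.castSucc : MvPolynomial (Fin 6) ℝ) (pk k) := by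
  unfold PP RR
  rw [← Finset.prod_pow, ← Finset.prod_mul_distrib]
  refine Finset.prod_congr rfl fun i _ => ?_
  unfold pk
  simp only [map_mul, map_sub, map_one, map_pow, Polynomial.aeval_X, Polynomial.aeval_C, map_add, map_ofNat,
    MvPolynomial.algebraMap_eq]

/-- coefficients of products of univariate polynomials in distinct variables -/
lemma coeff_prod {σ : Type*} [DecidableEq σ] (f : σ → Polynomial ℝ) (s : Finset σ) (m : σ →₀ ℕ) :
    coeff m (∏ i ∈ s, Polynomial.aeval (X i : MvPolynomial σ ℝ) (f i)) =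
      if m.support ⊆ s then ∏ i ∈ s, (f i).coeff (m i) else 0 := by
  induction s using Finset.induction_on generalizing m with
  | empty =>
    simp only [Finset.prod_empty, Finset.subset_empty, Finsupp.support_eq_empty]
    rw [coeff_one]
    by_cases h : m = 0
    · simp [h]
    · rw [if_neg (fun h' => h h'.symm), if_neg h]
  | insert a s ha ih =>
    rw [Finset.prod_insert ha, Polynomial.aeval_eq_sum_range, Finset.sum_mul, coeff_sum]
    have h1 : ∀ j ∈ Finset.range ((f a).natDegree + 1),
        coeff m ((f a).coeff j • X a ^ j * ∏ i ∈ s, Polynomial.aeval (X i : MvPolynomial σ ℝ) (f i)) =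
        if j = m a then (if m.support ⊆ insert a s then (f a).coeff j * ∏ i ∈ s, (f i).coeff (m i) else 0)
          else 0 := by
      intro j _
      rw [smul_mul_assoc, coeff_smul, X_pow_eq_monomial, coeff_monomial_mul', one_mul, ih]
      by_cases hj : j = m a
      · subst hj
        have e1 : Finsupp.single a (m a) ≤ m := by
          rw [Finsupp.single_le_iff]
        rw [if_pos e1, if_pos rfl]
        have e2 : (m - Finsupp.single a (m a)).support ⊆ s ↔ m.support ⊆ insert a s := by
          constructor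
          · intro h i hi
            by_cases hia : i = a
            · subst hia; exact Finset.mem_insert_self _ _
            · refine Finset.mem_insert_of_mem (h ?_)
              rw [Finsupp.mem_support_iff, Finsupp.tsub_apply, Finsupp.single_eq_of_ne hia]
              simpa using hi
          · intro h i hi
            rw [Finsupp.mem_support_iff, Finsupp.tsub_apply] at hi
            by_cases hia : i = a
            · subst hia; simp at hi
            · rw [Finsupp.single_eq_of_ne hia] at hi
              have := h (Finsupp.mem_support_iff.2 (by simpa using hi))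
              exact (Finset.mem_insert.1 this).resolve_left hia
        by_cases h : m.support ⊆ insert a s
        · rw [if_pos (e2.2 h), if_pos h, smul_eq_mul]
          congr 1
          refine Finset.prod_congr rfl fun i hi => ?_
          have hia : i ≠ a := fun h' => ha (h' ▸ hi)
          rw [Finsupp.tsub_apply, Finsupp.single_eq_of_ne hia, tsub_zero]
        · rw [if_neg (fun h' => h (e2.1 h')), if_neg h, smul_zero]
      · rw [if_neg hj]
        by_cases hle : Finsupp.single a j ≤ m
        · rw [if_pos hle, if_neg, smul_zero]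
          intro h
          have hle' : j ≤ m a := by simpa using hle a
          have : a ∈ (m - Finsupp.single a j).support := by
            rw [Finsupp.mem_support_iff, Finsupp.tsub_apply, Finsupp.single_eq_same]
            omega
          exact ha (h this)
        · rw [if_neg hle, smul_zero]
    rw [Finset.sum_congr rfl h1, Finset.sum_ite_eq' ]
    by_cases h : m.support ⊆ insert a s
    · rw [if_pos h, if_pos h, Finset.prod_insert ha]
      split_ifs with h3
      · rfl
      · rw [Polynomial.coeff_eq_zero_of_natDegree_lt (by simpa using h3), zero_mul]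
    · rw [if_neg h, if_neg h]; simp

lemma coeff_PR (k : ℕ) (m : Fin 6 →₀ ℕ) :
    coeff m (PP * RR ^ k) = if m (Fin.last 5) = 0 then ∏ i : Fin 5, (pk k).coeff (m i.castSucc) else 0 := by
  have h1 : PP * RR ^ k = ∏ i ∈ Finset.univ.map (Fin.castSuccEmb (n := 5)),
      Polynomial.aeval (X i : MvPolynomial (Fin 6) ℝ) (pk k) := by
    rw [PR, Finset.prod_map]; rfl
  rw [h1, coeff_prod (fun _ => pk k)]
  have h2 : m.support ⊆ Finset.univ.map (Fin.castSuccEmb (n := 5)) ↔ m (Fin.last 5) = 0 := by
    constructor
    · intro h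
      by_contra h0
      have := h (Finsupp.mem_support_iff.2 h0)
      rw [Finset.mem_map] at this
      obtain ⟨i, _, hi⟩ := this
      exact (Fin.castSucc_lt_last i).ne hi
    · intro h i hi
      rw [Finset.mem_map]
      induction i using Fin.lastCases with
      | last => exact absurd h (Finsupp.mem_support_iff.1 hi)
      | cast j => exact ⟨j, Finset.mem_univ _, rfl⟩
  by_cases h : m (Fin.last 5) = 0
  · rw [if_pos (h2.2 h), if_pos h, Finset.prod_map]; rfl
  · rw [if_neg (fun h' => h (h2.1 h')), if_neg h]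

/-- constant coefficient of the denominator -/
lemma QQ_cc : MvPolynomial.constantCoeff QQ = 1 := by
  unfold QQ; simp

noncomputable def HH : MvPowerSeries (Fin 6) ℝ := (PP : MvPowerSeries (Fin 6) ℝ) * (QQ : MvPowerSeries (Fin 6) ℝ)⁻¹

lemma HH_mul : HH * (QQ : MvPowerSeries (Fin 6) ℝ) = (PP : MvPowerSeries (Fin 6) ℝ) := by
  unfold HH
  rw [mul_assoc, MvPowerSeries.inv_mul_cancel, mul_one]
  have : MvPowerSeries.constantCoeff (QQ : MvPowerSeries (Fin 6) ℝ) = 1 := by
    have := QQ_cc
    rw [← this]
    rfl
  rw [this]; exact one_ne_zero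

lemma HH_iter (N : ℕ) : HH = ((∑ j ∈ Finset.range N, PP * (X (Fin.last 5) * RR) ^ j : MvPolynomial (Fin 6) ℝ) :
    MvPowerSeries (Fin 6) ℝ) +
    MvPowerSeries.X (Fin.last 5) ^ N * ((RR : MvPowerSeries (Fin 6) ℝ) ^ N * HH) := by
  induction N with
  | zero => simp
  | succ N ih =>
    have h0 : HH = (PP : MvPowerSeries (Fin 6) ℝ) + MvPowerSeries.X (Fin.last 5) * (RR : MvPowerSeries (Fin 6) ℝ) * HH := by
      have := HH_mul
      unfold QQ at this
      have hsub : ((1 - X (Fin.last 5) * RR : MvPolynomial (Fin 6) ℝ) : MvPowerSeries (Fin 6) ℝ) =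
          1 - MvPowerSeries.X (Fin.last 5) * (RR : MvPowerSeries (Fin 6) ℝ) := by
        have e1 : ((1 - X (Fin.last 5) * RR : MvPolynomial (Fin 6) ℝ) : MvPowerSeries (Fin 6) ℝ) =
          MvPolynomial.coeToMvPowerSeries.ringHom (1 - X (Fin.last 5) * RR : MvPolynomial (Fin 6) ℝ) := rfl
        rw [e1, map_sub, map_one, map_mul]
        simp
      rw [hsub] at this
      rw [← this]; ring
    rw [Finset.sum_range_succ, MvPolynomial.coe_add]
    conv_lhs => rw [ih]
    conv_lhs => rw [h0]
    have h1 : ((PP * (X (Fin.last 5) * RR) ^ N : MvPolynomial (Fin 6) ℝ) : MvPowerSeries (Fin 6) ℝ) =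
      (PP : MvPowerSeries (Fin 6) ℝ) * (MvPowerSeries.X (Fin.last 5) * (RR : MvPowerSeries (Fin 6) ℝ)) ^ N := by
      rw [MvPolynomial.coe_mul, MvPolynomial.coe_pow, MvPolynomial.coe_mul, MvPolynomial.coe_X]
    rw [h1]
    ring

lemma coeff_HH (m : Fin 6 →₀ ℕ) : MvPowerSeries.coeff m HH =
    ∏ i : Fin 5, (pk (m (Fin.last 5))).coeff (m i.castSucc) := by
  set k := m (Fin.last 5) with hk
  rw [HH_iter (k + 1), map_add, MvPolynomial.coeff_coe, coeff_sum]
  have h1 : MvPowerSeries.coeff m (MvPowerSeries.X (Fin.last 5) ^ (k + 1) *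
      ((RR : MvPowerSeries (Fin 6) ℝ) ^ (k + 1) * HH)) = 0 := by
    rw [MvPowerSeries.X_pow_eq, MvPowerSeries.coeff_monomial_mul, if_neg]
    intro h
    have := h (Fin.last 5)
    rw [Finsupp.single_eq_same] at this
    omega
  rw [h1, add_zero]
  have h2 : ∀ j ∈ Finset.range (k + 1), coeff m (PP * (X (Fin.last 5) * RR) ^ j) =
      if j = k then ∏ i : Fin 5, (pk k).coeff (m i.castSucc) else 0 := by
    intro j hj
    rw [Finset.mem_range] at hj
    have e1 : PP * (X (Fin.last 5) * RR) ^ j = X (Fin.last 5) ^ j * (PP * RR ^ j) := by ring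
    rw [e1, X_pow_eq_monomial, coeff_monomial_mul', one_mul, if_pos, coeff_PR]
    · rw [Finsupp.tsub_apply, Finsupp.single_eq_same]
      by_cases hjk : j = k
      · subst hjk
        rw [if_pos (by omega), if_pos rfl]
        refine Finset.prod_congr rfl fun i _ => ?_
        rw [Finsupp.tsub_apply, Finsupp.single_eq_of_ne (Fin.castSucc_lt_last i).ne, tsub_zero]
      · rw [if_neg (by omega), if_neg hjk]
    · rw [Finsupp.single_le_iff]; omega
  rw [Finset.sum_congr rfl h2, Finset.sum_ite_eq', if_pos (by simp)]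

lemma not_summable : ¬ Summable (fun m : Fin 6 →₀ ℕ => |MvPowerSeries.coeff m HH|) := by
  intro hs
  let φ : ℕ × (Fin 5 → ℕ) → (Fin 6 →₀ ℕ) := fun p => Finsupp.equivFunOnFinite.symm (Fin.snoc (α := fun _ => ℕ) p.2 p.1)
  have hφ : Function.Injective φ := by
    intro p q h
    have h1 := Finsupp.equivFunOnFinite.symm.injective h
    refine Prod.ext ?_ ?_
    · have := congrFun h1 (Fin.last 5)
      rwa [Fin.snoc_last, Fin.snoc_last] at this
    · funext i
      have := congrFun h1 i.castSucc
      rwa [Fin.snoc_castSucc, Fin.snoc_castSucc] at this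
  have h1 := hs.comp_injective hφ
  have h2 : (fun m : Fin 6 →₀ ℕ => |MvPowerSeries.coeff m HH|) ∘ φ =
      fun p : ℕ × (Fin 5 → ℕ) => ∏ i : Fin 5, |(pk p.1).coeff (p.2 i)| := by
    funext p
    simp only [Function.comp_apply, coeff_HH, φ]
    rw [Finset.abs_prod]
    simp only [Finsupp.equivFunOnFinite_symm_apply_apply, Fin.snoc_last, Fin.snoc_castSucc]
  rw [h2] at h1
  have h3 := h1.prod
  obtain ⟨c, hc, hA⟩ := A_lower
  have h4 : ∀ k : ℕ, 0 < k → c / k ≤ ∑' v : Fin 5 → ℕ, ∏ i : Fin 5, |(pk k).coeff (v i)| := by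
    intro k hk
    refine (hA k hk).trans ?_
    have e1 : (∑ i ∈ (pk k).support, |(pk k).coeff i|) ^ 5 =
        ∏ _i : Fin 5, ∑ j ∈ (pk k).support, |(pk k).coeff j| := by
      rw [Finset.prod_const, Finset.card_univ, Fintype.card_fin]
    rw [e1, Finset.prod_univ_sum]
    refine (h1.prod_factor k).sum_le_tsum _ (fun v _ => Finset.prod_nonneg fun i _ => abs_nonneg _)
  have h5 : Summable (fun k : ℕ => c / (k : ℝ)) := by
    refine Summable.of_nonneg_of_le (fun k => by positivity) (fun k => ?_) h3
    rcases Nat.eq_zero_or_pos k with rfl | hk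
    · simp only [Nat.cast_zero, div_zero]
      exact tsum_nonneg fun v => Finset.prod_nonneg fun i _ => abs_nonneg _
    · exact h4 k hk
  have h6 : Summable (fun k : ℕ => (1 : ℝ) / (k : ℝ)) := by
    have := h5.mul_left (1 / c)
    refine this.congr fun k => ?_
    field_simp
  exact Real.not_summable_one_div_natCast h6

end Pool.Agent.H7.Bibo
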