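import Pool.Agent.H7.Bibo.Coef

set_option autoImplicit false

open MeasureTheory Set intervalIntegral

namespace Pool.Agent.H7.Bibo

local instance instTwoPiPos : Fact (0 < 2 * Real.pi) := Fact.mk Real.two_pi_pos

/-- the polynomials `(1 - X) ((3 + 6 X - X²)/8)^k` -/
noncomputable def pk (k : ℕ) : Polynomial ℝ :=
  (1 - Polynomial.X) * (Polynomial.C (1 / 8) * (3 + 6 * Polynomial.X - Polynomial.X ^ 2)) ^ k

/-- complex version -/
noncomputable def pc (k : ℕ) : Polynomial ℂ := (pk k).map (algebraMap ℝ ℂ)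

lemma pc_eval (k : ℕ) (θ : ℝ) : (pc k).eval (E θ) = (1 - E θ) * rr θ ^ k := by
  unfold pc pk rr gg
  rw [Polynomial.eval_map, Polynomial.eval₂_mul, Polynomial.eval₂_pow, Polynomial.eval₂_mul]
  simp only [Polynomial.eval₂_sub, Polynomial.eval₂_one, Polynomial.eval₂_X, Polynomial.eval₂_C,
    Polynomial.eval₂_add, Polynomial.eval₂_mul, Polynomial.eval₂_pow, Polynomial.eval₂_ofNat]
  congr 2
  simp
  ring

lemma pc_coeff (k n : ℕ) : (pc k).coeff n = ((pk k).coeff n : ℂ) := by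
  unfold pc; rw [Polynomial.coeff_map]; rfl

lemma coeff_formula (k n : ℕ) : ((pk k).coeff n : ℂ) =
    (1 / (2 * Real.pi) : ℝ) • ∫ θ in (-Real.pi)..Real.pi, (1 - E θ) * FF k n θ := by
  rw [← pc_coeff, ← Polynomial.fourierCoeff_toAddCircle_natCast, fourierCoeff_eq_intervalIntegral _ _ (-Real.pi)]
  have h1 : -Real.pi + 2 * Real.pi = Real.pi := by ring
  rw [h1]
  congr 1
  refine integral_congr fun θ _ => ?_
  have h2 : (Polynomial.toAddCircle (pc k)) (θ : AddCircle (2 * Real.pi)) = (pc k).eval (E θ) := by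
    simp [Polynomial.toAddCircle, AddCircle.toCircle, E]
  rw [h2, pc_eval]
  unfold FF
  have h3 : (fourier (-(n : ℤ)) (θ : AddCircle (2 * Real.pi)) : ℂ) = Complex.exp (-(n : ℂ) * θ * Complex.I) := by
    rw [fourier_coe_apply]
    congr 1
    push_cast
    field_simp
  rw [h3, smul_eq_mul]
  ring

lemma sym_int (k n : ℕ) : ‖∫ θ in (-Real.pi)..Real.pi, (1 - E θ) * FF k n θ‖ ≤
    2 * ‖∫ θ in (0 : ℝ)..Real.pi, (1 - E θ) * FF k n θ‖ := by
  have hcont : Continuous fun θ => (1 - E θ) * FF k n θ := (continuous_const.sub E_cont).mul (FF_cont k n)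
  have hii : ∀ a b, IntervalIntegrable (fun θ => (1 - E θ) * FF k n θ) volume a b := fun a b =>
    hcont.intervalIntegrable a b
  have h1 : ∫ θ in (-Real.pi)..0, (1 - E θ) * FF k n θ =
      (starRingEnd ℂ) (∫ θ in (0 : ℝ)..Real.pi, (1 - E θ) * FF k n θ) := by
    have h2 := intervalIntegral.integral_comp_neg (a := 0) (b := Real.pi) (fun θ => (1 - E θ) * FF k n θ)
    rw [neg_zero] at h2
    rw [← h2, ← intervalIntegral_conj]
    refine integral_congr fun θ _ => ?_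
    unfold FF rr gg
    simp only [map_mul, map_sub, map_one, map_pow, map_div₀, map_add]
    rw [E_neg, ← Complex.exp_conj]
    have c3 : (starRingEnd ℂ) 3 = 3 := map_ofNat _ _
    have c6 : (starRingEnd ℂ) 6 = 6 := map_ofNat _ _
    have c8 : (starRingEnd ℂ) 8 = 8 := map_ofNat _ _
    simp [c3, c6, c8]
  rw [← integral_add_adjacent_intervals (hii (-Real.pi) 0) (hii 0 Real.pi), h1]
  refine (norm_add_le _ _).trans (le_of_eq ?_)
  rw [RCLike.norm_conj]; ring

lemma coef_bound {κ : ℝ} (hκ : 1 ≤ κ) {k : ℕ} (hk : (k : ℝ) = κ ^ 12) (n : ℕ) :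
    |(pk k).coeff n| ≤ 1400 / κ ^ 7 := by
  have h1 : |(pk k).coeff n| = ‖((pk k).coeff n : ℂ)‖ := (Complex.norm_real _).symm
  have hpi3 := Real.pi_gt_three
  rw [h1, coeff_formula, norm_smul, Real.norm_of_nonneg (by positivity)]
  have h2 := (sym_int k n).trans (mul_le_mul_of_nonneg_left (osc_bound hκ hk n) (by norm_num))
  have h3 : 0 < 4200 / κ ^ 7 := by positivity
  calc 1 / (2 * Real.pi) * ‖∫ θ in (-Real.pi)..Real.pi, (1 - E θ) * FF k n θ‖ ≤
        1 / (2 * Real.pi) * (2 * (4200 / κ ^ 7)) := mul_le_mul_of_nonneg_left h2 (by positivity)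
    _ = (1 / Real.pi) * (4200 / κ ^ 7) := by field_simp
    _ ≤ (1 / 3) * (4200 / κ ^ 7) := by
        apply mul_le_mul_of_nonneg_right _ h3.le
        exact one_div_le_one_div_of_le (by norm_num) hpi3.le
    _ = _ := by ring

lemma l2_lower {κ : ℝ} (hκ : 1 ≤ κ) {k : ℕ} (hk : (k : ℝ) = κ ^ 12) :
    1 / (95 * κ ^ 9) ≤ ∑ i ∈ (pk k).support, |(pk k).coeff i| ^ 2 := by
  have hκ0 : 0 < κ := by linarith
  have hpi0 := Real.pi_pos
  have hpi3 := Real.pi_gt_three
  have hpi : Real.pi ≤ 3.15 := by have := Real.pi_lt_d2; linarith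
  have h1 : ∑ i ∈ (pk k).support, |(pk k).coeff i| ^ 2 = ∑ i ∈ (pc k).support, ‖(pc k).coeff i‖ ^ 2 := by
    have e1 : (pc k).support = (pk k).support := by
      unfold pc
      exact Polynomial.support_map_of_injective _ (algebraMap ℝ ℂ).injective
    rw [e1]
    refine Finset.sum_congr rfl fun i _ => ?_
    rw [pc_coeff, Complex.norm_real]; rfl
  rw [h1, Polynomial.sum_sq_norm_coeff_eq_circleAverage, Real.circleAverage_def]
  have h2 : ∀ θ : ℝ, circleMap 0 1 θ = E θ := by intro θ; simp [circleMap, E]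
  simp_rw [h2, pc_eval]
  set δ : ℝ := 1 / κ ^ 3 with hδ
  have hδ0 : 0 < δ := by positivity
  have hδ1 : δ ≤ 1 := by rw [hδ, div_le_one (by positivity)]; exact one_le_pow₀ hκ
  have hcont : Continuous fun θ => ‖(1 - E θ) * rr θ ^ k‖ ^ 2 :=
    ((continuous_const.sub E_cont).mul (rr_cont.pow k)).norm.pow 2
  have hii : ∀ a b, IntervalIntegrable (fun θ => ‖(1 - E θ) * rr θ ^ k‖ ^ 2) volume a b := fun a b =>
    hcont.intervalIntegrable a b
  have h3 : δ ^ 3 / 15 ≤ ∫ θ in (0 : ℝ)..δ, ‖(1 - E θ) * rr θ ^ k‖ ^ 2 := by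
    have e1 : ∫ θ in (0 : ℝ)..δ, θ ^ 2 / 5 = δ ^ 3 / 15 := by
      rw [intervalIntegral.integral_div, integral_pow]; norm_num; ring
    rw [← e1]
    apply integral_mono_on hδ0.le _ (hii _ _)
    · intro t ht
      rw [norm_mul, mul_pow, norm_one_sub, norm_pow, ← pow_mul, mul_comm k 2, pow_mul, rr_sq]
      have c1 := cos_le ht.1 (by linarith [ht.2])
      have c2 := Real.one_sub_sq_div_two_le_cos (x := t)
      have d1 : 2 / 5 * t ^ 2 ≤ 2 - 2 * Real.cos t := by linarith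
      have d2 : 2 - 2 * Real.cos t ≤ t ^ 2 := by linarith
      have d3 : (2 - 2 * Real.cos t) ^ 2 ≤ (t ^ 2) ^ 2 := pow_le_pow_left₀ (by nlinarith [sq_nonneg t]) d2 2
      have d4 : 1 - k * (3 / 64 * (t ^ 2) ^ 2) ≤ (1 - 3 / 64 * (2 - 2 * Real.cos t) ^ 2) ^ k := by
        have b1 : 1 + (k : ℝ) * (-(3 / 64 * (t ^ 2) ^ 2)) ≤ (1 + (-(3 / 64 * (t ^ 2) ^ 2))) ^ k := by
          apply one_add_mul_le_pow
          have : (t ^ 2) ^ 2 ≤ 1 := by
            have : t ^ 2 ≤ 1 := by nlinarith [ht.1, ht.2]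
            nlinarith [sq_nonneg t]
          linarith
        have b2 : (1 + (-(3 / 64 * (t ^ 2) ^ 2))) ^ k ≤ (1 - 3 / 64 * (2 - 2 * Real.cos t) ^ 2) ^ k := by
          apply pow_le_pow_left₀
          · have : (t ^ 2) ^ 2 ≤ 1 := by
              have : t ^ 2 ≤ 1 := by nlinarith [ht.1, ht.2]
              nlinarith [sq_nonneg t]
            linarith
          · linarith
        linarith
      have d5 : (k : ℝ) * (t ^ 2) ^ 2 ≤ 1 := by
        have : (t ^ 2) ^ 2 = t ^ 4 := by ring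
        rw [this, hk]
        have : t ^ 4 ≤ δ ^ 4 := pow_le_pow_left₀ ht.1 ht.2 4
        calc κ ^ 12 * t ^ 4 ≤ κ ^ 12 * δ ^ 4 := mul_le_mul_of_nonneg_left this (by positivity)
          _ = 1 := by rw [hδ]; field_simp
      have d6 : 1 / 2 ≤ (1 - 3 / 64 * (2 - 2 * Real.cos t) ^ 2) ^ k := by linarith
      calc t ^ 2 / 5 = (2 / 5 * t ^ 2) * (1 / 2) := by ring
        _ ≤ _ := mul_le_mul d1 d6 (by norm_num) (by nlinarith [sq_nonneg t])
    · apply Continuous.intervalIntegrable; fun_prop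
  have h4 : ∫ θ in (0 : ℝ)..δ, ‖(1 - E θ) * rr θ ^ k‖ ^ 2 ≤ ∫ θ in (0 : ℝ)..(2 * Real.pi), ‖(1 - E θ) * rr θ ^ k‖ ^ 2 := by
    rw [← integral_add_adjacent_intervals (hii 0 δ) (hii δ (2 * Real.pi))]
    have : 0 ≤ ∫ θ in δ..(2 * Real.pi), ‖(1 - E θ) * rr θ ^ k‖ ^ 2 :=
      intervalIntegral.integral_nonneg (by linarith) fun _ _ => by positivity
    linarith
  rw [smul_eq_mul]
  calc 1 / (95 * κ ^ 9) = (1 / 6.333333333333333333333) * (δ ^ 3 / 15) * (6.333333333333333333333 * 15 / 95) := by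
        rw [hδ]; field_simp
    _ ≤ (2 * Real.pi)⁻¹ * (δ ^ 3 / 15) := by
        rw [← one_div]
        have e1 : (1 / 6.333333333333333333333 : ℝ) * (6.333333333333333333333 * 15 / 95) ≤ 1 / (2 * Real.pi) := by
          rw [le_div_iff₀ (by positivity)]
          norm_num
          linarith
        have e2 : 0 ≤ δ ^ 3 / 15 := by positivity
        nlinarith
    _ ≤ _ := mul_le_mul_of_nonneg_left (h3.trans h4) (by positivity)

/-- lower bound for the `ℓ¹` norm of the coefficients -/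
theorem A_lower : ∃ c : ℝ, 0 < c ∧ ∀ k : ℕ, 0 < k → c / k ≤ (∑ i ∈ (pk k).support, |(pk k).coeff i|) ^ 5 := by
  refine ⟨(1 / 133000) ^ 5, by positivity, fun k hk => ?_⟩
  have hk1 : (1 : ℝ) ≤ k := by exact_mod_cast hk
  set κ : ℝ := (k : ℝ) ^ ((1 : ℝ) / 12) with hκd
  have hκ : 1 ≤ κ := Real.one_le_rpow hk1 (by norm_num)
  have hκk : (k : ℝ) = κ ^ 12 := by
    rw [hκd, ← Real.rpow_natCast, ← Real.rpow_mul (by positivity)]
    norm_num
  have hκ0 : 0 < κ := by linarith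
  set A := ∑ i ∈ (pk k).support, |(pk k).coeff i| with hA
  have h1 := l2_lower hκ hκk
  have h2 : ∑ i ∈ (pk k).support, |(pk k).coeff i| ^ 2 ≤ 1400 / κ ^ 7 * A := by
    rw [hA, Finset.mul_sum]
    refine Finset.sum_le_sum fun i _ => ?_
    rw [sq]
    exact mul_le_mul_of_nonneg_right (coef_bound hκ hκk i) (abs_nonneg _)
  have h3 : 1 / (133000 * κ ^ 2) ≤ A := by
    have h4 := h1.trans h2
    rw [div_le_iff₀ (by positivity)] at h4
    rw [div_le_iff₀ (by positivity)]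
    have h5 : 1400 / κ ^ 7 * A * (95 * κ ^ 9) = A * (133000 * κ ^ 2) := by field_simp; ring
    rw [h5] at h4
    exact h4
  have h4 : (1 / (133000 * κ ^ 2)) ^ 5 ≤ A ^ 5 := pow_le_pow_left₀ (by positivity) h3 5
  refine le_trans ?_ h4
  rw [hκk, div_pow, div_pow, one_pow, mul_pow, ← pow_mul, div_div, div_le_div_iff₀ (by positivity) (by positivity)]
  have : κ ^ (2 * 5) ≤ κ ^ 12 := pow_le_pow_right₀ hκ (by norm_num)
  nlinarith

end Pool.Agent.H7.Bibo
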