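import Pool.Agent.H7.Bibo.Osc

set_option autoImplicit false

open MeasureTheory Set intervalIntegral

namespace Pool.Agent.H7.Bibo

lemma E_cont : Continuous E := by unfold E; fun_prop
lemma gg_cont : Continuous fun t => gg (E t) := by unfold gg; have := E_cont; fun_prop
lemma rr_cont : Continuous rr := by unfold rr; exact gg_cont.div_const 8
lemma FF_cont (k n : ℕ) : Continuous (FF k n) := by unfold FF; have := rr_cont; fun_prop

lemma FF_norm (k n : ℕ) (θ : ℝ) : ‖FF k n θ‖ = ‖rr θ ^ k‖ := by
  unfold FF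
  rw [norm_mul, Complex.norm_exp]
  have : (-(n : ℂ) * θ * Complex.I).re = 0 := by simp
  rw [this, Real.exp_zero, mul_one]

theorem osc_bound {κ : ℝ} (hκ : 1 ≤ κ) {k : ℕ} (hk : (k : ℝ) = κ ^ 12) (n : ℕ) :
    ‖∫ θ in (0 : ℝ)..Real.pi, (1 - E θ) * FF k n θ‖ ≤ 4200 / κ ^ 7 := by
  have hκ0 : 0 < κ := by linarith
  have hk0 : 0 < k := by
    have : (0 : ℝ) < k := by rw [hk]; positivity
    exact_mod_cast this
  have hpi0 := Real.pi_pos
  have hpi3 := Real.pi_gt_three
  have hpi : Real.pi ≤ 3.15 := by have := Real.pi_lt_d2; linarith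
  set η : ℝ := 1 / κ ^ 4 with hη
  have hη0 : 0 < η := by positivity
  have hη1 : η ≤ 1 := by rw [hη, div_le_one (by positivity)]; exact one_le_pow₀ hκ
  have hηpi : η ≤ Real.pi / 2 := by linarith
  have hcont : Continuous fun θ => (1 - E θ) * FF k n θ := (continuous_const.sub E_cont).mul (FF_cont k n)
  have hii : ∀ a b, IntervalIntegrable (fun θ => (1 - E θ) * FF k n θ) volume a b := fun a b =>
    hcont.intervalIntegrable a b
  have hcos : ∀ t ∈ Icc η (Real.pi / 2), 0 ≤ Real.cos t := fun t ht =>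
    Real.cos_nonneg_of_neg_pi_div_two_le_of_le (by linarith [ht.1]) ht.2
  set K : ℝ := κ ^ 3 with hK
  have hK0 : 0 < K := by positivity
  have hkK : (k : ℝ) = K ^ 4 := by rw [hk, hK]; ring
  -- first part
  have p1 : ‖∫ θ in (0 : ℝ)..η, (1 - E θ) * FF k n θ‖ ≤ η ^ 2 / 2 := by
    have e1 : ‖∫ θ in (0 : ℝ)..η, (1 - E θ) * FF k n θ‖ ≤ ∫ θ in (0 : ℝ)..η, θ := by
      refine norm_integral_le_of_norm_le hη0.le ?_ (continuous_id.intervalIntegrable _ _)
      filter_upwards with t ht
      rw [norm_mul, FF_norm, norm_pow]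
      have e2 := one_sub_le ht.1.le
      have e3 : ‖rr t‖ ^ k ≤ 1 := pow_le_one₀ (norm_nonneg _) (rr_le_one t)
      calc ‖1 - E t‖ * ‖rr t‖ ^ k ≤ t * 1 := mul_le_mul e2 e3 (by positivity) ht.1.le
        _ = t := mul_one t
    rw [integral_id] at e1
    linarith
  -- third part
  have p3 : ‖∫ θ in (Real.pi / 2)..Real.pi, (1 - E θ) * FF k n θ‖ ≤ 2 * (10 / k) * (Real.pi / 2) := by
    have e1 := norm_integral_le_of_norm_le_const (a := Real.pi / 2) (b := Real.pi)
      (f := fun θ => (1 - E θ) * FF k n θ) (C := 2 * (10 / k)) (fun t ht => by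
        rw [uIoc_of_le (by linarith)] at ht
        rw [norm_mul, FF_norm]
        have e2 : ‖1 - E t‖ ≤ 2 := by
          refine (norm_sub_le _ _).trans ?_
          rw [norm_one, E_norm]; norm_num
        exact mul_le_mul e2 (rr_pow_far hk0 ht.1.le ht.2) (norm_nonneg _) (by norm_num))
    refine e1.trans (le_of_eq ?_)
    rw [show Real.pi - Real.pi / 2 = Real.pi / 2 by ring, abs_of_pos (by positivity)]
  -- second part
  have p2 : ‖∫ θ in η..(Real.pi / 2), (1 - E θ) * FF k n θ‖ ≤ 50 * (27 / K) / Real.sqrt (κ ^ 8 / 8) := by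
    refine vdc hηpi (G := fun θ => 1 - E θ) (G' := fun θ => -(E θ * Complex.I)) (F := FF k n) (L := LL k n)
      (L' := LL' k) (ψ := ps k n) (ψ' := ps' k) (lam := κ ^ 8 / 8) (S := 27 / K) (by positivity) (by positivity)
      (fun t ht => FF_deriv k n (hcos t ht)) (fun t _ => (E_deriv t).const_sub 1)
      (fun t ht => LL_deriv k n (hcos t ht)) (fun t ht => ps_deriv k n (hcos t ht)) ?_ ?_ ?_
      (fun t ht => ps_le k n (hcos t ht))
      (fun t ht => LL'_le k (hcos t ht) (by linarith [ht.1]) ht.2) ?_ ?_ ?_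
    · exact (E_cont.mul continuous_const).neg.continuousOn
    · unfold LL'
      apply ContinuousOn.neg
      apply ContinuousOn.mul continuousOn_const
      apply ContinuousOn.div
      · have := E_cont
        apply Continuous.continuousOn; fun_prop
      · exact (gg_cont.pow 2).continuousOn
      · intro t ht
        exact pow_ne_zero 2 (gg_ne (hcos t ht))
    · unfold ps'
      apply ContinuousOn.mul continuousOn_const
      apply ContinuousOn.div
      · apply Continuous.continuousOn; fun_prop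
      · apply Continuous.continuousOn; fun_prop
      · intro t ht
        have := den_ge (hcos t ht)
        have h0 : (13 + 6 * Real.cos t - 3 * Real.cos t ^ 2) ≠ 0 := by linarith
        exact pow_ne_zero 2 h0
    · intro t ht
      have e1 := ps'_ge k (hcos t ht) (by linarith [ht.1]) ht.2
      refine le_trans ?_ e1
      rw [hk]
      have e2 : κ ^ 8 = κ ^ 12 * η := by rw [hη]; field_simp
      rw [e2]
      have := mul_le_mul_of_nonneg_left ht.1 (show 0 ≤ κ ^ 12 by positivity)
      linarith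
    · intro t ht
      have ht0 : 0 ≤ t := by linarith [ht.1]
      rw [norm_mul, FF_norm]
      have e1 := rr_pow_le hkK ht0 (by linarith [ht.2])
      have e2 := one_sub_le ht0
      calc ‖1 - E t‖ * ‖rr t ^ k‖ ≤ t * (17 / (1 + (K * t) ^ 2)) := mul_le_mul e2 e1 (norm_nonneg _) ht0
        _ ≤ 27 / K := by
          rw [mul_div_assoc', div_le_div_iff₀ (by positivity) hK0]
          nlinarith [sq_nonneg (K * t - 1)]
    · have e1 : ∫ t in η..(Real.pi / 2), ‖-(E t * Complex.I) * FF k n t‖ ≤
          ∫ t in η..(Real.pi / 2), 17 * (1 / (1 + (K * t) ^ 2)) := by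
        apply integral_mono_on hηpi
        · apply Continuous.intervalIntegrable
          exact ((E_cont.mul continuous_const).neg.mul (FF_cont k n)).norm
        · apply Continuous.intervalIntegrable
          apply Continuous.mul continuous_const
          apply Continuous.div continuous_const (by fun_prop)
          intro t; positivity
        · intro t ht
          rw [norm_mul, norm_neg, norm_mul, E_norm, Complex.norm_I, FF_norm, one_mul, one_mul]
          have := rr_pow_le hkK (by linarith [ht.1] : 0 ≤ t) (by linarith [ht.2])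
          calc _ ≤ _ := this
            _ = _ := by ring
      refine e1.trans ?_
      rw [intervalIntegral.integral_const_mul]
      have e2 : ∀ t ∈ uIcc η (Real.pi / 2), HasDerivAt (fun t => Real.arctan (K * t) / K) (1 / (1 + (K * t) ^ 2)) t := by
        intro t _
        have e3 := (((hasDerivAt_id t).const_mul K).arctan).div_const K
        refine e3.congr_deriv ?_
        simp only [id]
        field_simp
      have e3 : IntervalIntegrable (fun t => 1 / (1 + (K * t) ^ 2)) volume η (Real.pi / 2) := by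
        apply Continuous.intervalIntegrable
        apply Continuous.div continuous_const (by fun_prop)
        intro t; positivity
      rw [integral_eq_sub_of_hasDerivAt e2 e3, ← sub_div, mul_div_assoc', div_le_div_iff_of_pos_right hK0]
      have e4 := Real.arctan_lt_pi_div_two (K * (Real.pi / 2))
      have e5 : 0 ≤ Real.arctan (K * η) := Real.arctan_nonneg.2 (by positivity)
      linarith
  -- combine
  have hsplit : ∫ θ in (0 : ℝ)..Real.pi, (1 - E θ) * FF k n θ = (∫ θ in (0 : ℝ)..η, (1 - E θ) * FF k n θ) +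
      (∫ θ in η..(Real.pi / 2), (1 - E θ) * FF k n θ) + ∫ θ in (Real.pi / 2)..Real.pi, (1 - E θ) * FF k n θ := by
    rw [integral_add_adjacent_intervals (hii _ _) (hii _ _), integral_add_adjacent_intervals (hii _ _) (hii _ _)]
  rw [hsplit]
  refine (norm_add₃_le).trans ?_
  have hs : κ ^ 4 / 3 ≤ Real.sqrt (κ ^ 8 / 8) := by
    apply Real.le_sqrt_of_sq_le
    have : (κ ^ 4 / 3) ^ 2 = κ ^ 8 / 9 := by ring
    rw [this]
    have : 0 < κ ^ 8 := by positivity
    linarith
  have q2 : 50 * (27 / K) / Real.sqrt (κ ^ 8 / 8) ≤ 4050 / κ ^ 7 := by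
    have h1 : 50 * (27 / K) / Real.sqrt (κ ^ 8 / 8) ≤ 50 * (27 / K) / (κ ^ 4 / 3) :=
      div_le_div_of_nonneg_left (by positivity) (by positivity) hs
    refine h1.trans (le_of_eq ?_)
    rw [hK]; field_simp; norm_num
  have q1 : η ^ 2 / 2 ≤ 1 / κ ^ 7 := by
    rw [hη, div_pow, one_pow, ← pow_mul, div_div, div_le_div_iff₀ (by positivity) (by positivity)]
    have : κ ^ 7 ≤ κ ^ (4 * 2) := pow_le_pow_right₀ hκ (by norm_num)
    nlinarith [show 0 < κ ^ (4 * 2) by positivity]
  have q3 : 2 * (10 / (k : ℝ)) * (Real.pi / 2) ≤ 32 / κ ^ 7 := by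
    rw [hk]
    have h1 : κ ^ 7 ≤ κ ^ 12 := pow_le_pow_right₀ hκ (by norm_num)
    have h2 : 10 / κ ^ 12 ≤ 10 / κ ^ 7 := div_le_div_of_nonneg_left (by norm_num) (by positivity) h1
    have h3 : 0 < 10 / κ ^ 7 := by positivity
    have h4 : (32 : ℝ) / κ ^ 7 = 3.2 * (10 / κ ^ 7) := by ring
    rw [h4]
    nlinarith
  have q4 : (4200 : ℝ) / κ ^ 7 = 4050 / κ ^ 7 + 1 / κ ^ 7 + 32 / κ ^ 7 + 117 / κ ^ 7 := by ring
  have q5 : 0 < 117 / κ ^ 7 := by positivity
  linarith

end Pool.Agent.H7.Bibo
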