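import Pool.Agent.H7.Bibo.Alg

set_option autoImplicit false

open MvPolynomial Filter Topology

namespace Pool.Agent.H7.Bibo

/-- `ρ` on the complex plane -/
noncomputable def rho (z : ℂ) : ℂ := (1 / 8) * (3 + 6 * z - z ^ 2)

lemma aeval_PP (z : Fin 6 → ℂ) : aeval z PP = ∏ i : Fin 5, (1 - z i.castSucc) := by
  unfold PP; simp [map_prod]

lemma aeval_QQ (z : Fin 6 → ℂ) : aeval z QQ = 1 - z (Fin.last 5) * ∏ i : Fin 5, rho (z i.castSucc) := by
  unfold QQ RR rho
  rw [map_sub, map_one, map_mul, aeval_X, map_prod]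
  congr 2
  refine Finset.prod_congr rfl fun i _ => ?_
  simp only [map_mul, map_sub, map_add, map_pow, aeval_X, map_ofNat, aeval_C]
  norm_num

lemma rho_bound {z : ℂ} (hz : ‖z‖ ≤ 1) : ‖rho z‖ ^ 2 ≤ 1 - 3 / 64 * ‖1 - z‖ ^ 4 := by
  have h1 : ‖z‖ ^ 2 ≤ 1 := by nlinarith [norm_nonneg z]
  have h2 : ‖1 - z‖ ^ 4 = (‖1 - z‖ ^ 2) ^ 2 := by ring
  rw [h2]
  rw [← Complex.normSq_eq_norm_sq] at *
  rw [← Complex.normSq_eq_norm_sq]
  have h3 : z.re ≤ 1 := by
    have := Complex.abs_re_le_norm z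
    linarith [le_abs_self z.re]
  unfold rho
  rw [Complex.normSq_mul]
  rw [Complex.normSq_apply] at *
  have e1 : ((3 : ℂ) + 6 * z - z ^ 2).re = 3 + 6 * z.re - (z.re * z.re - z.im * z.im) := by
    simp [pow_two]
  have e2 : ((3 : ℂ) + 6 * z - z ^ 2).im = 6 * z.im - (z.re * z.im + z.im * z.re) := by
    simp [pow_two]
  have e3 : Complex.normSq (1 / 8) = 1 / 64 := by
    norm_num [Complex.normSq_apply]
  rw [Complex.normSq_apply ((3 : ℂ) + 6 * z - z ^ 2), Complex.normSq_apply (1 - z), e1, e2]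
  have e3' : (1 / 8 : ℂ).re * (1 / 8 : ℂ).re + (1 / 8 : ℂ).im * (1 / 8 : ℂ).im = 1 / 64 := by
    rw [← Complex.normSq_apply, e3]
  rw [e3']
  simp only [Complex.sub_re, Complex.sub_im, Complex.one_re, Complex.one_im]
  have h4 : 0 ≤ (1 - (z.re * z.re + z.im * z.im)) * (13 + (z.re * z.re + z.im * z.im) - 6 * z.re) := by
    apply mul_nonneg (by linarith)
    nlinarith [mul_self_nonneg z.re, mul_self_nonneg z.im]
  nlinarith [h4]

lemma rho_le_one {z : ℂ} (hz : ‖z‖ ≤ 1) : ‖rho z‖ ≤ 1 := by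
  have := rho_bound hz
  have h2 : 0 ≤ ‖1 - z‖ ^ 4 := by positivity
  by_contra h
  push Not at h
  nlinarith [norm_nonneg (rho z)]

lemma QQ_lower {z : Fin 6 → ℂ} (hz : ∀ i, ‖z i‖ ≤ 1) (j : Fin 5) :
    3 / 128 * ‖1 - z j.castSucc‖ ^ 4 ≤ ‖aeval z QQ‖ := by
  rw [aeval_QQ]
  set R := ∏ i : Fin 5, rho (z i.castSucc) with hR
  have h1 : ‖R‖ ≤ ‖rho (z j.castSucc)‖ := by
    rw [hR, norm_prod, ← Finset.mul_prod_erase _ _ (Finset.mem_univ j)]
    refine mul_le_of_le_one_right (norm_nonneg _) (Finset.prod_le_one (fun i _ => norm_nonneg _) fun i _ => rho_le_one (hz _))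
  have h2 := rho_bound (hz j.castSucc)
  have h3 : ‖R‖ ^ 2 ≤ ‖rho (z j.castSucc)‖ ^ 2 := by gcongr
  have h4 : ‖R‖ ≤ 1 := h1.trans (rho_le_one (hz _))
  have h5 : ‖z (Fin.last 5) * R‖ ≤ ‖R‖ := by
    rw [norm_mul]; exact mul_le_of_le_one_left (norm_nonneg _) (hz _)
  have h6 : 1 - ‖z (Fin.last 5) * R‖ ≤ ‖1 - z (Fin.last 5) * R‖ := by
    have := norm_sub_norm_le (1 : ℂ) (z (Fin.last 5) * R)
    rwa [norm_one] at this
  nlinarith [norm_nonneg R]

lemma frac_bound {z : Fin 6 → ℂ} (hz : ∀ i, ‖z i‖ ≤ 1) :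
    ‖aeval z PP / aeval z QQ‖ ≤ 128 / 3 * ∑ i : Fin 5, ‖1 - z i.castSucc‖ := by
  obtain ⟨j, hj⟩ := Finite.exists_max (fun i : Fin 5 => ‖1 - z i.castSucc‖)
  have h1 : ‖aeval z PP‖ ≤ ‖1 - z j.castSucc‖ ^ 5 := by
    rw [aeval_PP, norm_prod]
    calc ∏ i : Fin 5, ‖1 - z i.castSucc‖ ≤ ∏ _i : Fin 5, ‖1 - z j.castSucc‖ :=
          Finset.prod_le_prod (fun i _ => norm_nonneg _) fun i _ => hj i
      _ = _ := by rw [Finset.prod_const, Finset.card_univ, Fintype.card_fin]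
  have h2 := QQ_lower hz j
  have h3 : ‖1 - z j.castSucc‖ ≤ ∑ i : Fin 5, ‖1 - z i.castSucc‖ :=
    Finset.single_le_sum (f := fun i : Fin 5 => ‖1 - z i.castSucc‖) (fun i _ => norm_nonneg _) (Finset.mem_univ j)
  set a := ‖1 - z j.castSucc‖ with ha
  have ha0 : 0 ≤ a := norm_nonneg _
  refine le_trans ?_ (mul_le_mul_of_nonneg_left h3 (by norm_num : (0 : ℝ) ≤ 128 / 3))
  rw [norm_div]
  rcases ha0.eq_or_lt with h0 | h0
  · rw [← h0] at h1 ⊢
    have : ‖aeval z PP‖ = 0 := le_antisymm (by simpa using h1) (norm_nonneg _)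
    rw [this]; simp
  · have hq : 0 < ‖aeval z QQ‖ := lt_of_lt_of_le (by positivity) h2
    rw [div_le_iff₀ hq]
    calc ‖aeval z PP‖ ≤ a ^ 5 := h1
      _ = 128 / 3 * a * (3 / 128 * a ^ 4) := by ring
      _ ≤ _ := mul_le_mul_of_nonneg_left h2 (by positivity)

lemma torus_fin : {z : Fin 6 → ℂ | (∀ i, ‖z i‖ = 1) ∧ aeval z PP = 0 ∧ aeval z QQ = 0}.Finite := by
  refine (Set.finite_singleton (fun _ => (1 : ℂ))).subset ?_
  rintro z ⟨hz, -, hQ⟩
  have h1 : ∀ j : Fin 5, z j.castSucc = 1 := by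
    intro j
    have := QQ_lower (fun i => (hz i).le) j
    rw [hQ, norm_zero] at this
    have h2 : ‖1 - z j.castSucc‖ ^ 4 = 0 := le_antisymm (by linarith) (by positivity)
    have h3 : ‖1 - z j.castSucc‖ = 0 := by simpa using h2
    exact (sub_eq_zero.1 (norm_eq_zero.1 h3)).symm
  rw [Set.mem_singleton_iff]
  funext i
  induction i using Fin.lastCases with
  | last =>
    rw [aeval_QQ] at hQ
    simp only [h1] at hQ
    have : rho 1 = 1 := by unfold rho; norm_num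
    rw [this] at hQ
    simp at hQ
    exact (sub_eq_zero.1 hQ).symm
  | cast j => exact h1 j

lemma cont_on : ContinuousOn (fun z : Fin 6 → ℂ => aeval z PP / aeval z QQ) {z | ∀ i, ‖z i‖ ≤ 1} := by
  have cP : Continuous (fun z : Fin 6 → ℂ => aeval z PP) := by
    simp_rw [aeval_PP]
    exact continuous_finsetProd _ fun i _ => by fun_prop
  have cQ : Continuous (fun z : Fin 6 → ℂ => aeval z QQ) := by
    simp_rw [aeval_QQ]
    refine continuous_const.sub ((continuous_apply _).mul (continuous_finsetProd _ fun i _ => ?_))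
    unfold rho
    fun_prop
  intro z hz
  by_cases h : ∃ j : Fin 5, z j.castSucc ≠ 1
  · obtain ⟨j, hj⟩ := h
    have h1 : 0 < ‖1 - z j.castSucc‖ := norm_pos_iff.2 (sub_ne_zero.2 (Ne.symm hj))
    have h2 : aeval z QQ ≠ 0 := norm_pos_iff.1 (lt_of_lt_of_le (by positivity) (QQ_lower hz j))
    exact (cP.continuousAt.div cQ.continuousAt h2).continuousWithinAt
  · push Not at h
    have h0 : aeval z PP / aeval z QQ = 0 := by
      rw [aeval_PP, Finset.prod_eq_zero (Finset.mem_univ (0 : Fin 5)), zero_div]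
      rw [h]; ring
    unfold ContinuousWithinAt
    simp only [h0]
    refine squeeze_zero_norm' (a := fun z : Fin 6 → ℂ => 128 / 3 * ∑ i : Fin 5, ‖1 - z i.castSucc‖) ?_ ?_
    · filter_upwards [self_mem_nhdsWithin] with w hw
      exact frac_bound hw
    · have hc : Continuous (fun z : Fin 6 → ℂ => 128 / 3 * ∑ i : Fin 5, ‖1 - z i.castSucc‖) := by
        fun_prop
      have h1 : (128 / 3 * ∑ i : Fin 5, ‖1 - z i.castSucc‖ : ℝ) = 0 := by
        simp [h]
      have := hc.continuousWithinAt (s := {z | ∀ i, ‖z i‖ ≤ 1}) (x := z)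
      unfold ContinuousWithinAt at this
      simp only [h1] at this
      exact this

lemma irr (i : Fin 6) : Irreducible (1 - X i : MvPolynomial (Fin 6) ℝ) := by
  have hc1 : coeff (Finsupp.single i 1) (1 - X i : MvPolynomial (Fin 6) ℝ) = -1 := by
    rw [coeff_sub, coeff_one, coeff_X, if_neg, if_pos rfl]
    · norm_num
    · intro h
      have := congrArg (fun f => f i) h
      simp at this
  apply irreducible_of_totalDegree_eq_one
  · apply le_antisymm
    · refine (totalDegree_sub _ _).trans ?_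
      simp
    · rw [Nat.one_le_iff_ne_zero]
      intro h0
      rw [totalDegree_eq_zero_iff_eq_C] at h0
      rw [h0, coeff_C, if_neg] at hc1
      · norm_num at hc1
      · intro h
        have := congrArg (fun f => f i) h
        simp at this
  · intro x hx
    have := hx (Finsupp.single i 1)
    rw [hc1] at this
    exact isUnit_of_dvd_unit this (by norm_num)

lemma relprime : IsRelPrime PP QQ := by
  unfold PP
  refine IsRelPrime.prod_left fun i _ => ?_
  rw [(irr i.castSucc).isRelPrime_iff_not_dvd]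
  rintro ⟨g, hg⟩
  let z : Fin 6 → ℂ := Fin.snoc (α := fun _ => ℂ) (fun _ => (1 : ℂ)) 0
  have h1 := congrArg (aeval z) hg
  rw [map_mul, aeval_QQ] at h1
  have h2 : z (Fin.last 5) = 0 := by simp only [z, Fin.snoc_last]
  have h3 : z i.castSucc = 1 := by simp only [z, Fin.snoc_castSucc]
  rw [h2, map_sub, map_one, aeval_X, h3] at h1
  simp at h1

theorem main :
    ¬ (∀ (n : ℕ) (P Q : MvPolynomial (Fin n) ℝ),
      IsRelPrime P Q →
      MvPolynomial.constantCoeff Q ≠ 0 →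
      {z : Fin n → ℂ | (∀ i, ‖z i‖ = 1) ∧ MvPolynomial.aeval z P = 0 ∧
          MvPolynomial.aeval z Q = 0}.Finite →
      (Summable (fun k : Fin n →₀ ℕ =>
          |MvPowerSeries.coeff k
            ((P : MvPowerSeries (Fin n) ℝ) * (Q : MvPowerSeries (Fin n) ℝ)⁻¹)|) ↔
        ∃ F : (Fin n → ℂ) → ℂ,
          ContinuousOn F {z : Fin n → ℂ | ∀ i, ‖z i‖ ≤ 1} ∧
          ∀ z : Fin n → ℂ, (∀ i, ‖z i‖ < 1) → MvPolynomial.aeval z Q ≠ 0 →
            F z = MvPolynomial.aeval z P / MvPolynomial.aeval z Q)) := by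
  intro h
  have h1 := (h 6 PP QQ relprime (by rw [QQ_cc]; exact one_ne_zero) torus_fin).2
    ⟨fun z => aeval z PP / aeval z QQ, cont_on, fun z _ _ => rfl⟩
  exact not_summable h1

end Pool.Agent.H7.Bibo
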