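import Pool.Agent.H7.Bibo.Vdc

set_option autoImplicit false

open MeasureTheory Set intervalIntegral

namespace Pool.Agent.H7.Bibo

/-- unit circle -/
noncomputable def E (θ : ℝ) : ℂ := Complex.exp (θ * Complex.I)

/-- the polynomial `3 + 6 z - z²` -/
noncomputable def gg (z : ℂ) : ℂ := 3 + 6 * z - z ^ 2

lemma E_re (θ : ℝ) : (E θ).re = Real.cos θ := by unfold E; rw [Complex.exp_ofReal_mul_I_re]
lemma E_im (θ : ℝ) : (E θ).im = Real.sin θ := by unfold E; rw [Complex.exp_ofReal_mul_I_im]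

lemma E_norm (θ : ℝ) : ‖E θ‖ = 1 := by unfold E; exact Complex.norm_exp_ofReal_mul_I θ

lemma E_deriv (θ : ℝ) : HasDerivAt E (E θ * Complex.I) θ := by
  unfold E
  have h1 : HasDerivAt (fun t : ℝ => (t : ℂ) * Complex.I) (1 * Complex.I) θ :=
    (HasDerivAt.ofReal_comp (hasDerivAt_id θ)).mul_const Complex.I
  rw [one_mul] at h1
  exact h1.cexp

lemma E_neg (θ : ℝ) : E (-θ) = (starRingEnd ℂ) (E θ) := by
  unfold E
  rw [← Complex.exp_conj]
  congr 1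
  simp

lemma sq_sc (θ : ℝ) : Real.sin θ ^ 2 = 1 - Real.cos θ ^ 2 := by
  have := Real.sin_sq_add_cos_sq θ; linarith

lemma norm_one_sub (θ : ℝ) : ‖1 - E θ‖ ^ 2 = 2 - 2 * Real.cos θ := by
  rw [← Complex.normSq_eq_norm_sq, Complex.normSq_apply]
  simp only [Complex.sub_re, Complex.sub_im, Complex.one_re, Complex.one_im, E_re, E_im]
  have := sq_sc θ
  nlinarith

lemma gg_re (θ : ℝ) : (gg (E θ)).re = 4 + 6 * Real.cos θ - 2 * Real.cos θ ^ 2 := by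
  unfold gg
  rw [sq]
  simp only [Complex.sub_re, Complex.add_re, Complex.mul_re, E_re, E_im, Complex.re_ofNat, Complex.im_ofNat]
  have := sq_sc θ
  nlinarith

lemma gg_im (θ : ℝ) : (gg (E θ)).im = (6 - 2 * Real.cos θ) * Real.sin θ := by
  unfold gg
  rw [sq]
  simp only [Complex.sub_im, Complex.add_im, Complex.mul_im, E_re, E_im, Complex.re_ofNat, Complex.im_ofNat]
  ring

lemma gg_normSq (θ : ℝ) : ‖gg (E θ)‖ ^ 2 = 4 * (13 + 6 * Real.cos θ - 3 * Real.cos θ ^ 2) := by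
  rw [← Complex.normSq_eq_norm_sq, Complex.normSq_apply, gg_re, gg_im]
  have := sq_sc θ
  have e : (6 - 2 * Real.cos θ) * Real.sin θ * ((6 - 2 * Real.cos θ) * Real.sin θ) =
      (6 - 2 * Real.cos θ) ^ 2 * Real.sin θ ^ 2 := by ring
  rw [e, this]
  ring

lemma one_sub_le {θ : ℝ} (h : 0 ≤ θ) : ‖1 - E θ‖ ≤ θ := by
  have h1 := norm_one_sub θ
  have h2 := Real.one_sub_sq_div_two_le_cos (x := θ)
  have h3 : ‖1 - E θ‖ ^ 2 ≤ θ ^ 2 := by linarith
  exact le_of_sq_le_sq h3 h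

/-- Jordan type lower bound -/
lemma cos_le {θ : ℝ} (h0 : 0 ≤ θ) (h1 : θ ≤ Real.pi) : Real.cos θ ≤ 1 - θ ^ 2 / 5 := by
  have hpi0 := Real.pi_pos
  have hpi : Real.pi ≤ 3.15 := by have := Real.pi_lt_d2; linarith
  have h2 := Real.mul_le_sin (x := θ / 2) (by linarith) (by linarith)
  have h3 : θ / 3.15 ≤ Real.sin (θ / 2) := by
    refine le_trans ?_ h2
    have : 2 / Real.pi * (θ / 2) = θ / Real.pi := by field_simp
    rw [this]
    exact div_le_div_of_nonneg_left h0 hpi0 hpi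
  have h4 : Real.cos θ = 1 - 2 * Real.sin (θ / 2) ^ 2 := by
    have := Real.cos_two_mul (θ / 2)
    rw [show 2 * (θ / 2) = θ by ring] at this
    rw [this, sq_sc]
    ring
  have h5 : (θ / 3.15) ^ 2 ≤ Real.sin (θ / 2) ^ 2 := pow_le_pow_left₀ (by positivity) h3 2
  rw [h4]
  rw [div_pow] at h5
  norm_num at h5
  linarith [sq_nonneg θ]

lemma sin_ge {θ : ℝ} (h0 : 0 ≤ θ) (h1 : θ ≤ Real.pi / 2) : 0.63 * θ ≤ Real.sin θ := by
  have hpi0 := Real.pi_pos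
  have hpi : Real.pi ≤ 3.15 := by have := Real.pi_lt_d2; linarith
  refine le_trans ?_ (Real.mul_le_sin h0 h1)
  apply mul_le_mul_of_nonneg_right _ h0
  rw [le_div_iff₀ hpi0]
  nlinarith

/-- normalised polynomial on the circle -/
noncomputable def rr (θ : ℝ) : ℂ := gg (E θ) / 8

lemma rr_sq (θ : ℝ) : ‖rr θ‖ ^ 2 = 1 - 3 / 64 * (2 - 2 * Real.cos θ) ^ 2 := by
  unfold rr
  rw [norm_div, div_pow, gg_normSq, Complex.norm_ofNat]
  ring

lemma rr_le_one (θ : ℝ) : ‖rr θ‖ ≤ 1 := by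
  have h1 := rr_sq θ
  have h2 : ‖rr θ‖ ^ 2 ≤ 1 := by rw [h1]; nlinarith [sq_nonneg (2 - 2 * Real.cos θ)]
  nlinarith [norm_nonneg (rr θ)]

/-- decay of the powers near the origin -/
lemma rr_pow_le {K : ℝ} {k : ℕ} (hk : (k : ℝ) = K ^ 4) {θ : ℝ} (h0 : 0 ≤ θ) (h1 : θ ≤ Real.pi) :
    ‖rr θ ^ k‖ ≤ 17 / (1 + (K * θ) ^ 2) := by
  have hc := cos_le h0 h1
  have h2 : ‖rr θ‖ ^ 2 ≤ 1 - 3 / 400 * θ ^ 4 := by
    rw [rr_sq]
    have h3 : 2 / 5 * θ ^ 2 ≤ 2 - 2 * Real.cos θ := by linarith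
    have h4 : (2 / 5 * θ ^ 2) ^ 2 ≤ (2 - 2 * Real.cos θ) ^ 2 := pow_le_pow_left₀ (by positivity) h3 2
    nlinarith
  set x := 3 / 400 * θ ^ 4 with hx
  have hx0 : 0 ≤ x := by positivity
  have h3 : (‖rr θ‖ ^ 2) ^ k * (1 + k * x) ≤ 1 := by
    have h4 : (‖rr θ‖ ^ 2) ^ k ≤ (1 - x) ^ k := pow_le_pow_left₀ (by positivity) h2 k
    have h5 : 1 + k * x ≤ (1 + x) ^ k := by
      have := one_add_mul_le_pow (a := x) (by linarith) k
      linarith
    have h6 : 0 ≤ 1 - x := (sq_nonneg _).trans h2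
    calc (‖rr θ‖ ^ 2) ^ k * (1 + k * x) ≤ (1 - x) ^ k * (1 + x) ^ k :=
          mul_le_mul h4 h5 (by positivity) (by positivity)
      _ = (1 - x ^ 2) ^ k := by rw [← mul_pow]; congr 1; ring
      _ ≤ 1 := pow_le_one₀ (by nlinarith) (by nlinarith [sq_nonneg x])
  rw [norm_pow, le_div_iff₀ (by positivity)]
  have h7 : (‖rr θ‖ ^ k * (1 + (K * θ) ^ 2)) ^ 2 ≤ 17 ^ 2 := by
    have e1 : (‖rr θ‖ ^ k) ^ 2 = (‖rr θ‖ ^ 2) ^ k := by rw [← pow_mul, ← pow_mul, mul_comm]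
    rw [mul_pow, e1]
    have e2 : (1 + (K * θ) ^ 2) ^ 2 ≤ 17 ^ 2 * (1 + k * x) := by
      rw [hk, hx]
      have : K ^ 4 * (3 / 400 * θ ^ 4) = 3 / 400 * ((K * θ) ^ 2) ^ 2 := by ring
      rw [this]
      nlinarith [sq_nonneg ((K * θ) ^ 2 - 1), sq_nonneg ((K * θ) ^ 2)]
    calc (‖rr θ‖ ^ 2) ^ k * (1 + (K * θ) ^ 2) ^ 2 ≤ (‖rr θ‖ ^ 2) ^ k * (17 ^ 2 * (1 + k * x)) :=
          mul_le_mul_of_nonneg_left e2 (by positivity)
      _ = 17 ^ 2 * ((‖rr θ‖ ^ 2) ^ k * (1 + k * x)) := by ring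
      _ ≤ 17 ^ 2 * 1 := mul_le_mul_of_nonneg_left h3 (by norm_num)
      _ = _ := by ring
  exact le_of_sq_le_sq h7 (by norm_num)

/-- decay away from the origin -/
lemma rr_pow_far {k : ℕ} (hk : 0 < k) {θ : ℝ} (h0 : Real.pi / 2 ≤ θ) (h1 : θ ≤ Real.pi) :
    ‖rr θ ^ k‖ ≤ 10 / k := by
  have hc : Real.cos θ ≤ 0 := Real.cos_nonpos_of_pi_div_two_le_of_le h0 (by linarith [Real.pi_pos])
  have h2 : ‖rr θ‖ ^ 2 ≤ (10 / 11) ^ 2 := by
    rw [rr_sq]
    have : (2 : ℝ) ^ 2 ≤ (2 - 2 * Real.cos θ) ^ 2 := pow_le_pow_left₀ (by norm_num) (by linarith) 2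
    nlinarith
  have h3 : ‖rr θ‖ ≤ 10 / 11 := le_of_sq_le_sq h2 (by norm_num)
  have hk' : (0 : ℝ) < k := by exact_mod_cast hk
  rw [norm_pow, le_div_iff₀ hk']
  have h4 : 1 + (k : ℝ) * (1 / 10) ≤ (1 + 1 / 10) ^ k := one_add_mul_le_pow (by norm_num) k
  have h5 : ‖rr θ‖ ^ k ≤ (10 / 11) ^ k := pow_le_pow_left₀ (norm_nonneg _) h3 k
  calc ‖rr θ‖ ^ k * k ≤ (10 / 11) ^ k * (10 * (1 + 1 / 10) ^ k) := by
        apply mul_le_mul h5 _ hk'.le (by positivity)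
        linarith
    _ = 10 * ((10 / 11) * (1 + 1 / 10)) ^ k := by rw [mul_pow]; ring
    _ ≤ 10 := by norm_num

/-- the oscillating factor -/
noncomputable def FF (k n : ℕ) (θ : ℝ) : ℂ := rr θ ^ k * Complex.exp (-(n : ℂ) * θ * Complex.I)

/-- its logarithmic derivative -/
noncomputable def LL (k n : ℕ) (θ : ℝ) : ℂ :=
  (k * (E θ * (6 - 2 * E θ) / gg (E θ)) - n) * Complex.I

noncomputable def LL' (k : ℕ) (θ : ℝ) : ℂ :=
  -(k * (E θ * (6 * (1 - E θ) * (3 + E θ)) / gg (E θ) ^ 2))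

noncomputable def ps (k n : ℕ) (θ : ℝ) : ℝ :=
  k * ((11 - 3 * Real.cos θ ^ 2) / (13 + 6 * Real.cos θ - 3 * Real.cos θ ^ 2)) - n

noncomputable def ps' (k : ℕ) (θ : ℝ) : ℝ :=
  k * (6 * Real.sin θ * (11 + 2 * Real.cos θ + 3 * Real.cos θ ^ 2) / (13 + 6 * Real.cos θ - 3 * Real.cos θ ^ 2) ^ 2)

section

variable {θ : ℝ}

lemma den_ge (h : 0 ≤ Real.cos θ) : 13 ≤ 13 + 6 * Real.cos θ - 3 * Real.cos θ ^ 2 := by
  nlinarith [Real.cos_le_one θ]

lemma den_le : 13 + 6 * Real.cos θ - 3 * Real.cos θ ^ 2 ≤ 16 := by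
  nlinarith [sq_nonneg (Real.cos θ - 1)]

lemma gg_ne (h : 0 ≤ Real.cos θ) : gg (E θ) ≠ 0 := by
  intro h0
  have h1 := gg_normSq θ
  rw [h0, norm_zero] at h1
  have := den_ge h
  nlinarith

lemma gg_deriv (θ : ℝ) : HasDerivAt (fun t => gg (E t)) ((6 - 2 * E θ) * (E θ * Complex.I)) θ := by
  unfold gg
  have h1 := E_deriv θ
  have h2 := ((h1.const_mul 6).const_add 3).sub (h1.pow 2)
  refine h2.congr_deriv ?_
  push_cast
  ring

lemma rr_deriv (θ : ℝ) : HasDerivAt rr ((6 - 2 * E θ) * (E θ * Complex.I) / 8) θ := by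
  unfold rr
  exact (gg_deriv θ).div_const 8

lemma FF_deriv (k n : ℕ) (h : 0 ≤ Real.cos θ) : HasDerivAt (FF k n) (FF k n θ * LL k n θ) θ := by
  unfold FF
  have h1 := (rr_deriv θ).pow k
  have h2 : HasDerivAt (fun t : ℝ => Complex.exp (-(n : ℂ) * t * Complex.I))
      (Complex.exp (-(n : ℂ) * θ * Complex.I) * (-(n : ℂ) * Complex.I)) θ := by
    have h3 : HasDerivAt (fun t : ℝ => -(n : ℂ) * (t : ℂ) * Complex.I) (-(n : ℂ) * 1 * Complex.I) θ :=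
      ((HasDerivAt.ofReal_comp (hasDerivAt_id θ)).const_mul (-(n : ℂ))).mul_const Complex.I
    rw [mul_one] at h3
    exact h3.cexp
  have h3 := h1.mul h2
  refine h3.congr_deriv ?_
  have hg := gg_ne h
  have hr : rr θ ≠ 0 := by unfold rr; exact div_ne_zero hg (by norm_num)
  unfold LL
  rcases k with _ | k
  · simp
  · rw [Nat.add_sub_cancel, Pi.pow_apply]
    have e1 : gg (E θ) = 8 * rr θ := by unfold rr; ring
    rw [e1]
    push_cast
    field_simp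
    ring

lemma LL_deriv (k n : ℕ) (h : 0 ≤ Real.cos θ) : HasDerivAt (LL k n) (LL' k θ) θ := by
  unfold LL
  have hg := gg_ne h
  have h1 := E_deriv θ
  have h2 := (h1.mul ((h1.const_mul 2).const_sub 6)).div (gg_deriv θ) hg
  have h3 := ((h2.const_mul (k : ℂ)).sub_const (n : ℂ)).mul_const Complex.I
  refine h3.congr_deriv ?_
  unfold LL'
  simp only [Pi.mul_apply]
  have e1 : gg (E θ) = 3 + 6 * E θ - E θ ^ 2 := rfl
  have hI : Complex.I ^ 2 = -1 := Complex.I_sq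
  field_simp
  rw [e1]
  ring_nf
  rw [hI]
  ring

lemma ps_deriv (k n : ℕ) (h : 0 ≤ Real.cos θ) : HasDerivAt (ps k n) (ps' k θ) θ := by
  unfold ps
  have hd : (13 + 6 * Real.cos θ - 3 * Real.cos θ ^ 2) ≠ 0 := by have := den_ge h; linarith
  have h1 := Real.hasDerivAt_cos θ
  have h2 := (((h1.pow 2).const_mul 3).const_sub 11).div (((h1.const_mul 6).const_add 13).sub ((h1.pow 2).const_mul 3)) hd
  have h3 := (h2.const_mul (k : ℝ)).sub_const (n : ℝ)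
  refine h3.congr_deriv ?_
  unfold ps'
  simp only [Pi.pow_apply, Pi.sub_apply]
  push_cast
  field_simp
  ring

lemma ps_le (k n : ℕ) (h : 0 ≤ Real.cos θ) : |ps k n θ| ≤ ‖LL k n θ‖ := by
  have hd : 0 < (13 + 6 * Real.cos θ - 3 * Real.cos θ ^ 2) := by have := den_ge h; linarith
  have h1 : ps k n θ = (k * (E θ * (6 - 2 * E θ) / gg (E θ)) - n : ℂ).re := by
    have e1 : E θ * (6 - 2 * E θ) / gg (E θ) = E θ * (6 - 2 * E θ) * (starRingEnd ℂ) (gg (E θ)) / ((‖gg (E θ)‖ ^ 2 : ℝ) : ℂ) := by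
      rw [← Complex.normSq_eq_norm_sq, ← Complex.mul_conj]
      have hg := gg_ne h
      have hg' : (starRingEnd ℂ) (gg (E θ)) ≠ 0 := by simpa using hg
      field_simp
    have e2 : (E θ * (6 - 2 * E θ) / gg (E θ)).re = (11 - 3 * Real.cos θ ^ 2) / (13 + 6 * Real.cos θ - 3 * Real.cos θ ^ 2) := by
      rw [e1, Complex.div_ofReal_re, gg_normSq, div_eq_div_iff (by positivity) hd.ne']
      simp only [Complex.mul_re, Complex.mul_im, Complex.conj_re, Complex.conj_im, Complex.sub_re, Complex.sub_im,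
        E_re, E_im, gg_re, gg_im, Complex.re_ofNat, Complex.im_ofNat]
      have hs := sq_sc θ
      ring_nf
      rw [hs]
      ring
    have e3 : (k * (E θ * (6 - 2 * E θ) / gg (E θ)) - n : ℂ).re = k * (E θ * (6 - 2 * E θ) / gg (E θ)).re - n := by
      rw [Complex.sub_re, Complex.natCast_re]
      have : ((k : ℂ) * (E θ * (6 - 2 * E θ) / gg (E θ))) = (((k : ℝ) : ℂ) * (E θ * (6 - 2 * E θ) / gg (E θ))) := by
        push_cast; rfl
      rw [this, Complex.re_ofReal_mul]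
    rw [e3, e2]; rfl
  have h2 : ‖LL k n θ‖ = ‖(k * (E θ * (6 - 2 * E θ) / gg (E θ)) - n : ℂ)‖ := by
    unfold LL; rw [norm_mul, Complex.norm_I, mul_one]
  rw [h1, h2]
  exact Complex.abs_re_le_norm _

lemma LL'_le (k : ℕ) (h : 0 ≤ Real.cos θ) (h0 : 0 ≤ θ) (h1 : θ ≤ Real.pi / 2) :
    ‖LL' k θ‖ ≤ 4 * ps' k θ := by
  have hd := den_ge h
  have hd2 := den_le (θ := θ)
  have hk : (0 : ℝ) ≤ k := Nat.cast_nonneg k
  have e1 : ‖LL' k θ‖ ≤ k * (24 * θ / 52) := by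
    unfold LL'
    rw [norm_neg, norm_mul, Complex.norm_natCast, norm_div, norm_mul, norm_mul, norm_mul, E_norm, norm_pow, gg_normSq,
      Complex.norm_ofNat, one_mul]
    apply mul_le_mul_of_nonneg_left _ hk
    have e2 : ‖3 + E θ‖ ≤ 4 := by
      refine (norm_add_le _ _).trans ?_
      rw [E_norm, Complex.norm_ofNat]; norm_num
    have e3 := one_sub_le h0
    apply div_le_div₀ (by positivity) _ (by norm_num) (by linarith)
    calc 6 * ‖1 - E θ‖ * ‖3 + E θ‖ ≤ 6 * θ * 4 := by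
          apply mul_le_mul _ e2 (norm_nonneg _) (by positivity)
          linarith
      _ = 24 * θ := by ring
  have e2 : k * (0.1624 * θ) ≤ ps' k θ := by
    unfold ps'
    apply mul_le_mul_of_nonneg_left _ hk
    have e3 := sin_ge h0 h1
    rw [le_div_iff₀ (by positivity)]
    have e4 : (13 + 6 * Real.cos θ - 3 * Real.cos θ ^ 2) ^ 2 ≤ 256 := by nlinarith
    have e5 : 11 ≤ 11 + 2 * Real.cos θ + 3 * Real.cos θ ^ 2 := by nlinarith [sq_nonneg (Real.cos θ)]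
    calc 0.1624 * θ * (13 + 6 * Real.cos θ - 3 * Real.cos θ ^ 2) ^ 2 ≤ 0.1624 * θ * 256 :=
          mul_le_mul_of_nonneg_left e4 (by positivity)
      _ ≤ 6 * (0.63 * θ) * 11 := by linarith
      _ ≤ _ := by
          apply mul_le_mul _ e5 (by norm_num) (by nlinarith)
          linarith
  have e3 : 0 ≤ (k : ℝ) * θ := by positivity
  calc ‖LL' k θ‖ ≤ k * (24 * θ / 52) := e1
    _ ≤ 4 * (k * (0.1624 * θ)) := by nlinarith
    _ ≤ 4 * ps' k θ := by linarith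

lemma ps'_ge (k : ℕ) (h : 0 ≤ Real.cos θ) (h0 : 0 ≤ θ) (h1 : θ ≤ Real.pi / 2) :
    k * θ / 8 ≤ ps' k θ := by
  have hd := den_ge h
  have hd2 := den_le (θ := θ)
  have hk : (0 : ℝ) ≤ k := Nat.cast_nonneg k
  have e2 : k * (θ / 8) ≤ ps' k θ := by
    unfold ps'
    apply mul_le_mul_of_nonneg_left _ hk
    have e3 := sin_ge h0 h1
    rw [le_div_iff₀ (by positivity)]
    have e4 : (13 + 6 * Real.cos θ - 3 * Real.cos θ ^ 2) ^ 2 ≤ 256 := by nlinarith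
    have e5 : 11 ≤ 11 + 2 * Real.cos θ + 3 * Real.cos θ ^ 2 := by nlinarith [sq_nonneg (Real.cos θ)]
    calc θ / 8 * (13 + 6 * Real.cos θ - 3 * Real.cos θ ^ 2) ^ 2 ≤ θ / 8 * 256 :=
          mul_le_mul_of_nonneg_left e4 (by positivity)
      _ ≤ 6 * (0.63 * θ) * 11 := by linarith
      _ ≤ _ := by
          apply mul_le_mul _ e5 (by norm_num) (by nlinarith)
          linarith
  calc _ = k * (θ / 8) := by ring
    _ ≤ _ := e2

end

end Pool.Agent.H7.Bibo
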