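import Mathlib

set_option autoImplicit false

open MeasureTheory Set intervalIntegral

namespace Pool.Agent.H7.Bibo

/-- a van der Corput type estimate -/
theorem vdc {a b : ℝ} (hab : a ≤ b) {F G L G' L' : ℝ → ℂ} {ψ ψ' : ℝ → ℝ} {lam S : ℝ} (hlam : 0 < lam)
    (hS : 0 ≤ S)
    (hF : ∀ t ∈ Icc a b, HasDerivAt F (F t * L t) t)
    (hG : ∀ t ∈ Icc a b, HasDerivAt G (G' t) t)
    (hL : ∀ t ∈ Icc a b, HasDerivAt L (L' t) t)
    (hψ : ∀ t ∈ Icc a b, HasDerivAt ψ (ψ' t) t)
    (cG' : ContinuousOn G' (Icc a b)) (cL' : ContinuousOn L' (Icc a b)) (cψ' : ContinuousOn ψ' (Icc a b))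
    (h1 : ∀ t ∈ Icc a b, |ψ t| ≤ ‖L t‖) (h2 : ∀ t ∈ Icc a b, ‖L' t‖ ≤ 4 * ψ' t)
    (h3 : ∀ t ∈ Icc a b, lam ≤ ψ' t)
    (h4 : ∀ t ∈ Icc a b, ‖G t * F t‖ ≤ S) (h5 : ∫ t in a..b, ‖G' t * F t‖ ≤ S) :
    ‖∫ t in a..b, G t * F t‖ ≤ 50 * S / Real.sqrt lam := by
  set μ := Real.sqrt lam with hμ
  have hμ0 : 0 < μ := Real.sqrt_pos.2 hlam
  have hμ2 : μ ^ 2 = lam := Real.sq_sqrt hlam.le
  have cF : ContinuousOn F (Icc a b) := fun t ht => (hF t ht).continuousAt.continuousWithinAt
  have cG : ContinuousOn G (Icc a b) := fun t ht => (hG t ht).continuousAt.continuousWithinAt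
  have cL : ContinuousOn L (Icc a b) := fun t ht => (hL t ht).continuousAt.continuousWithinAt
  have cψ : ContinuousOn ψ (Icc a b) := fun t ht => (hψ t ht).continuousAt.continuousWithinAt
  set D : ℝ → ℝ := fun t => ‖L t‖ ^ 2 + lam with hD
  have D_pos : ∀ t, 0 < D t := fun t => by simp only [hD]; positivity
  have D_ne : ∀ t, ((D t : ℝ) : ℂ) ≠ 0 := fun t => by exact_mod_cast (D_pos t).ne'
  set D' : ℝ → ℝ := fun t => 2 * inner ℝ (L t) (L' t) with hD'
  have hDd : ∀ t ∈ Icc a b, HasDerivAt D (D' t) t := fun t ht => ((hL t ht).norm_sq).add_const lam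
  set W : ℝ → ℂ := fun t => (starRingEnd ℂ) (L t) / (D t : ℂ) with hW
  set W' : ℝ → ℂ := fun t => ((starRingEnd ℂ) (L' t) * (D t : ℂ) - (starRingEnd ℂ) (L t) * (D' t : ℂ)) / (D t : ℂ) ^ 2 with hW'
  have hWd : ∀ t ∈ Icc a b, HasDerivAt W (W' t) t := by
    intro t ht
    have e1 : HasDerivAt (fun t => (starRingEnd ℂ) (L t)) ((starRingEnd ℂ) (L' t)) t :=
      Complex.conjCLE.toContinuousLinearMap.hasFDerivAt.comp_hasDerivAt t (hL t ht)
    exact e1.div (hDd t ht).ofReal_comp (D_ne t)
  have cD : ContinuousOn D (Icc a b) := by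
    simp only [hD]; exact (cL.norm.pow 2).add continuousOn_const
  have cDc : ContinuousOn (fun t => (D t : ℂ)) (Icc a b) := Complex.continuous_ofReal.comp_continuousOn cD
  have cD' : ContinuousOn D' (Icc a b) := by
    simp only [hD']; exact continuousOn_const.mul (cL.inner cL')
  have cW : ContinuousOn W (Icc a b) := fun t ht => (hWd t ht).continuousAt.continuousWithinAt
  have cW' : ContinuousOn W' (Icc a b) := by
    simp only [hW']
    refine ContinuousOn.div ?_ (cDc.pow 2) (fun t _ => pow_ne_zero 2 (D_ne t))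
    exact ((Complex.continuous_conj.comp_continuousOn cL').mul cDc).sub
      ((Complex.continuous_conj.comp_continuousOn cL).mul (Complex.continuous_ofReal.comp_continuousOn cD'))
  have W_le : ∀ t, ‖W t‖ ≤ 1 / (2 * μ) := by
    intro t
    simp only [hW]
    rw [norm_div, RCLike.norm_conj, Complex.norm_real, Real.norm_of_nonneg (D_pos t).le,
      div_le_div_iff₀ (D_pos t) (by positivity)]
    simp only [hD]
    nlinarith [sq_nonneg (‖L t‖ - μ)]
  have psi_D : ∀ t ∈ Icc a b, ψ t ^ 2 + lam ≤ D t := by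
    intro t ht
    simp only [hD]
    have := pow_le_pow_left₀ (abs_nonneg _) (h1 t ht) 2
    rw [sq_abs] at this
    linarith
  have psi_pos : ∀ t, 0 < ψ t ^ 2 + lam := fun t => by positivity
  have W'_le : ∀ t ∈ Icc a b, ‖W' t‖ ≤ 12 * (ψ' t / (ψ t ^ 2 + lam)) := by
    intro t ht
    have e1 : ‖W' t‖ ≤ 3 * ‖L' t‖ / D t := by
      simp only [hW']
      rw [norm_div, norm_pow, Complex.norm_real, Real.norm_of_nonneg (D_pos t).le, div_le_div_iff₀ (by have := D_pos t; positivity) (D_pos t)]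
      have e2 : ‖(starRingEnd ℂ) (L' t) * (D t : ℂ) - (starRingEnd ℂ) (L t) * (D' t : ℂ)‖ ≤ 3 * ‖L' t‖ * D t := by
        refine (norm_sub_le _ _).trans ?_
        rw [norm_mul, norm_mul, RCLike.norm_conj, RCLike.norm_conj, Complex.norm_real, Complex.norm_real,
          Real.norm_of_nonneg (D_pos t).le, Real.norm_eq_abs]
        have e3 : |D' t| ≤ 2 * (‖L t‖ * ‖L' t‖) := by
          simp only [hD']
          rw [abs_mul, abs_two]
          exact mul_le_mul_of_nonneg_left (abs_real_inner_le_norm _ _) (by norm_num)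
        have e4 : ‖L t‖ * |D' t| ≤ ‖L t‖ * (2 * (‖L t‖ * ‖L' t‖)) := mul_le_mul_of_nonneg_left e3 (norm_nonneg _)
        have e5 : ‖L t‖ ^ 2 ≤ D t := by simp only [hD]; linarith
        nlinarith [norm_nonneg (L' t), mul_le_mul_of_nonneg_right e5 (norm_nonneg (L' t))]
      calc _ ≤ 3 * ‖L' t‖ * D t * D t := mul_le_mul_of_nonneg_right e2 (D_pos t).le
        _ = _ := by ring
    refine e1.trans ?_
    have e6 : 3 * ‖L' t‖ / D t ≤ 3 * (4 * ψ' t) / (ψ t ^ 2 + lam) := by
      apply div_le_div₀ _ _ (psi_pos t) (psi_D t ht)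
      · have := h3 t ht; nlinarith
      · exact mul_le_mul_of_nonneg_left (h2 t ht) (by norm_num)
    refine e6.trans (le_of_eq ?_)
    ring
  -- the arctangent integral
  have harc : ∫ t in a..b, ψ' t / (ψ t ^ 2 + lam) ≤ Real.pi / μ := by
    have e1 : ∀ t ∈ uIcc a b, HasDerivAt (fun t => Real.arctan (ψ t / μ) / μ) (ψ' t / (ψ t ^ 2 + lam)) t := by
      intro t ht
      rw [uIcc_of_le hab] at ht
      have e2 := ((hψ t ht).div_const μ).arctan.div_const μ
      refine e2.congr_deriv ?_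
      rw [← hμ2]
      field_simp
      ring
    have e2 : IntervalIntegrable (fun t => ψ' t / (ψ t ^ 2 + lam)) volume a b := by
      apply ContinuousOn.intervalIntegrable
      rw [uIcc_of_le hab]
      exact cψ'.div ((cψ.pow 2).add continuousOn_const) (fun t _ => (psi_pos t).ne')
    rw [integral_eq_sub_of_hasDerivAt e1 e2, ← sub_div]
    apply div_le_div_of_nonneg_right _ hμ0.le
    have := Real.arctan_lt_pi_div_two (ψ b / μ)
    have := Real.neg_pi_div_two_lt_arctan (ψ a / μ)
    linarith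
  have iP : IntervalIntegrable (fun t => ψ' t / (ψ t ^ 2 + lam)) volume a b := by
    apply ContinuousOn.intervalIntegrable
    rw [uIcc_of_le hab]
    exact cψ'.div ((cψ.pow 2).add continuousOn_const) (fun t _ => (psi_pos t).ne')
  have P_nonneg : ∀ t ∈ Icc a b, 0 ≤ ψ' t / (ψ t ^ 2 + lam) := fun t ht =>
    div_nonneg (hlam.le.trans (h3 t ht)) (psi_pos t).le
  -- integrability
  have mk : ∀ f : ℝ → ℂ, ContinuousOn f (Icc a b) → IntervalIntegrable f volume a b := by
    intro f hf
    apply ContinuousOn.intervalIntegrable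
    rwa [uIcc_of_le hab]
  have i1 : IntervalIntegrable (fun t => G' t * W t * F t) volume a b := mk _ ((cG'.mul cW).mul cF)
  have i2 : IntervalIntegrable (fun t => G t * W' t * F t) volume a b := mk _ ((cG.mul cW').mul cF)
  have i3 : IntervalIntegrable (fun t => G t * W t * (F t * L t)) volume a b := mk _ ((cG.mul cW).mul (cF.mul cL))
  have i4 : IntervalIntegrable (fun t => G t * F t * ((lam / D t : ℝ) : ℂ)) volume a b := by
    refine mk _ ((cG.mul cF).mul (Complex.continuous_ofReal.comp_continuousOn ?_))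
    exact continuousOn_const.div cD (fun t _ => (D_pos t).ne')
  -- fundamental theorem
  have ftc : ∫ t in a..b, (G' t * W t * F t + G t * W' t * F t + G t * W t * (F t * L t)) =
      G b * W b * F b - G a * W a * F a := by
    have e1 : ∀ t ∈ uIcc a b, HasDerivAt (fun t => G t * W t * F t)
        (G' t * W t * F t + G t * W' t * F t + G t * W t * (F t * L t)) t := by
      intro t ht
      rw [uIcc_of_le hab] at ht
      have e2 := ((hG t ht).mul (hWd t ht)).mul (hF t ht)
      refine e2.congr_deriv ?_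
      rw [Pi.mul_apply]
      ring
    exact integral_eq_sub_of_hasDerivAt e1 ((i1.add i2).add i3)
  have dec : ∫ t in a..b, G t * F t = (∫ t in a..b, G t * W t * (F t * L t)) +
      ∫ t in a..b, G t * F t * ((lam / D t : ℝ) : ℂ) := by
    rw [← integral_add i3 i4]
    refine integral_congr fun t _ => ?_
    have e1 : W t * L t = ((‖L t‖ ^ 2 / D t : ℝ) : ℂ) := by
      simp only [hW]
      rw [div_mul_eq_mul_div, mul_comm, Complex.mul_conj, Complex.normSq_eq_norm_sq]
      push_cast; rfl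
    have e2 : (‖L t‖ ^ 2 / D t : ℝ) + lam / D t = 1 := by
      rw [← add_div]; exact div_self (D_pos t).ne'
    calc G t * F t = G t * F t * (((‖L t‖ ^ 2 / D t : ℝ) + lam / D t : ℝ) : ℂ) := by rw [e2]; simp
      _ = G t * F t * (W t * L t) + G t * F t * ((lam / D t : ℝ) : ℂ) := by rw [e1]; push_cast; ring
      _ = _ := by ring
  rw [integral_add (i1.add i2) i3, integral_add i1 i2] at ftc
  have main : ∫ t in a..b, G t * F t = (G b * W b * F b - G a * W a * F a) - (∫ t in a..b, G' t * W t * F t) -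
      (∫ t in a..b, G t * W' t * F t) + ∫ t in a..b, G t * F t * ((lam / D t : ℝ) : ℂ) := by
    rw [dec]
    linear_combination ftc
  have n1 : ∀ t ∈ Icc a b, ‖G t * W t * F t‖ ≤ S / (2 * μ) := by
    intro t ht
    have : G t * W t * F t = (G t * F t) * W t := by ring
    rw [this, norm_mul]
    calc ‖G t * F t‖ * ‖W t‖ ≤ S * (1 / (2 * μ)) := mul_le_mul (h4 t ht) (W_le t) (norm_nonneg _) hS
      _ = _ := by ring
  have n2 : ‖∫ t in a..b, G' t * W t * F t‖ ≤ S / (2 * μ) := by
    have e1 : ‖∫ t in a..b, G' t * W t * F t‖ ≤ ∫ t in a..b, 1 / (2 * μ) * ‖G' t * F t‖ := by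
      refine norm_integral_le_of_norm_le hab ?_ ?_
      · filter_upwards with t ht
        have : G' t * W t * F t = W t * (G' t * F t) := by ring
        rw [this, norm_mul]
        exact mul_le_mul_of_nonneg_right (W_le t) (norm_nonneg _)
      · apply ContinuousOn.intervalIntegrable
        rw [uIcc_of_le hab]
        exact continuousOn_const.mul (cG'.mul cF).norm
    refine e1.trans ?_
    rw [intervalIntegral.integral_const_mul]
    calc 1 / (2 * μ) * ∫ t in a..b, ‖G' t * F t‖ ≤ 1 / (2 * μ) * S := mul_le_mul_of_nonneg_left h5 (by positivity)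
      _ = _ := by ring
  have n3 : ‖∫ t in a..b, G t * W' t * F t‖ ≤ S * 12 * (Real.pi / μ) := by
    have e1 : ‖∫ t in a..b, G t * W' t * F t‖ ≤ ∫ t in a..b, S * 12 * (ψ' t / (ψ t ^ 2 + lam)) := by
      refine norm_integral_le_of_norm_le hab ?_ (iP.const_mul _)
      filter_upwards with t ht
      have ht' : t ∈ Icc a b := ⟨ht.1.le, ht.2⟩
      have : G t * W' t * F t = (G t * F t) * W' t := by ring
      rw [this, norm_mul, mul_assoc]
      exact mul_le_mul (h4 t ht') (W'_le t ht') (norm_nonneg _) hS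
    refine e1.trans ?_
    rw [intervalIntegral.integral_const_mul]
    exact mul_le_mul_of_nonneg_left harc (by positivity)
  have n4 : ‖∫ t in a..b, G t * F t * ((lam / D t : ℝ) : ℂ)‖ ≤ S * (Real.pi / μ) := by
    have e1 : ‖∫ t in a..b, G t * F t * ((lam / D t : ℝ) : ℂ)‖ ≤ ∫ t in a..b, S * (ψ' t / (ψ t ^ 2 + lam)) := by
      refine norm_integral_le_of_norm_le hab ?_ (iP.const_mul _)
      filter_upwards with t ht
      have ht' : t ∈ Icc a b := ⟨ht.1.le, ht.2⟩
      rw [norm_mul, Complex.norm_real, Real.norm_of_nonneg (div_nonneg hlam.le (D_pos t).le)]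
      refine mul_le_mul (h4 t ht') ?_ (div_nonneg hlam.le (D_pos t).le) hS
      exact div_le_div₀ (hlam.le.trans (h3 t ht')) (h3 t ht') (psi_pos t) (psi_D t ht')
    refine e1.trans ?_
    rw [intervalIntegral.integral_const_mul]
    exact mul_le_mul_of_nonneg_left harc hS
  have n5 := n1 b (right_mem_Icc.2 hab)
  have n6 := n1 a (left_mem_Icc.2 hab)
  rw [main]
  have t1 := norm_add_le ((G b * W b * F b - G a * W a * F a) - (∫ t in a..b, G' t * W t * F t) -
      (∫ t in a..b, G t * W' t * F t)) (∫ t in a..b, G t * F t * ((lam / D t : ℝ) : ℂ))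
  have t2 := norm_sub_le ((G b * W b * F b - G a * W a * F a) - (∫ t in a..b, G' t * W t * F t))
      (∫ t in a..b, G t * W' t * F t)
  have t3 := norm_sub_le (G b * W b * F b - G a * W a * F a) (∫ t in a..b, G' t * W t * F t)
  have t4 := norm_sub_le (G b * W b * F b) (G a * W a * F a)
  have hpi : Real.pi ≤ 3.15 := by have := Real.pi_lt_d2; linarith
  have e1 : S / (2 * μ) = (1 / 2) * (S / μ) := by ring
  have e2 : S * 12 * (Real.pi / μ) = 12 * Real.pi * (S / μ) := by ring
  have e3 : S * (Real.pi / μ) = Real.pi * (S / μ) := by ring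
  have e4 : 50 * S / μ = 50 * (S / μ) := by ring
  have e5 : 0 ≤ S / μ := by positivity
  rw [e1] at n2 n5 n6
  rw [e2] at n3
  rw [e3] at n4
  rw [e4]
  nlinarith [mul_le_mul_of_nonneg_right hpi e5]

end Pool.Agent.H7.Bibo
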